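import Pool.Agent.MP_6a06cd_co.KM.Fin2

open Pool.Agent.MP_6a06cd_co.H45 Filter Topology

namespace Pool.Agent.Results.MP_6a06cd_co.LowerBound

theorem result : ∃ lam : ℝ,
    Tendsto (fun n : ℕ => (t n : ℝ) ^ ((1 : ℝ) / n)) atTop (𝓝 lam) ∧ 4.0055 ≤ lam := by
  obtain ⟨lam, h1, h2⟩ := Pool.Agent.MP_6a06cd_co.KL.D.final
  exact ⟨lam, h1, by linarith⟩

end Pool.Agent.Results.MP_6a06cd_co.LowerBound
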