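import Pool.Agent.MP_6a06cd_co.H45.Final
import Pool.Agent.MP_6a06cd_co.H45.XAll

open Pool.Agent.MP_6a06cd_co.H45 Filter Topology

namespace Pool.Agent.Results.MP_6a06cd_co.UpperBound

theorem result : ∃ lam : ℝ,
    Tendsto (fun n : ℕ => (t n : ℝ) ^ ((1 : ℝ) / n)) atTop (𝓝 lam) ∧ lam < 4.249 := by
  obtain ⟨lam, h1, h2⟩ := limit_of_valid (p := 10000) (q := 42489) (by norm_num) (by norm_num)
    (valid_full (by norm_num) rfl rfl rfl all_t0 all_t1b all_t1i all_t2b all_t2i all_t3b all_t3i)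
    rootOK
  exact ⟨lam, h1, lt_of_le_of_lt h2 (by norm_num)⟩

end Pool.Agent.Results.MP_6a06cd_co.UpperBound
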